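import Pool.Agent.Helper24.HW.Stmts

set_option autoImplicit false

namespace Pool.Agent.Helper77.HW

open Equiv Equiv.Perm Pool.Agent.Helper24.HW Pool.Agent.Helper24.HWPub Pool.Agent.Helper98.Gn

theorem PTM : ST_PTM := by
  intro D C _ _ s s' ℓ x y hℓ hxy hn h A
  have hle : ∀ a b, s a b → s' a b := fun a b hab => (h a b).2 (Or.inl hab)
  have hfin : Finite (Quotient s) := Quotient.finite s
  have hfin' : Finite (Quotient s') := Quotient.finite s'
  let f : Quotient s → Quotient s' := Quotient.map' id hle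
  by_cases hA : A = ℓ x
  · rw [if_pos hA]
    have hy : Quotient.mk s y ∈ {O : Quotient s | ∃ z, ℓ z = A ∧ Quotient.mk _ z = O} :=
      ⟨y, by rw [← hxy, hA], rfl⟩
    have h1 : f '' ({O : Quotient s | ∃ z, ℓ z = A ∧ Quotient.mk _ z = O} \ {Quotient.mk s y}) =
        {O : Quotient s' | ∃ z, ℓ z = A ∧ Quotient.mk _ z = O} := by
      ext q
      constructor
      · rintro ⟨O, ⟨⟨z, hz, rfl⟩, _⟩, rfl⟩
        exact ⟨z, hz, rfl⟩
      · rintro ⟨z, hz, rfl⟩
        by_cases hzy : s z y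
        · refine ⟨Quotient.mk s x, ⟨⟨x, hA.symm, rfl⟩, fun hc => hn (Quotient.exact hc)⟩, ?_⟩
          apply Quotient.sound
          exact (h x z).2 (Or.inr ⟨Or.inl (s.refl x), Or.inr hzy⟩)
        · exact ⟨Quotient.mk s z, ⟨⟨z, hz, rfl⟩, fun hc => hzy (Quotient.exact hc)⟩, rfl⟩
    rw [← h1, Set.InjOn.ncard_image, Set.ncard_sdiff_singleton_add_one hy]
    rintro _ ⟨⟨a, ha, rfl⟩, ha'⟩ _ ⟨⟨b, hb, rfl⟩, hb'⟩ hab
    have h3 : s' a b := Quotient.exact hab
    have hna : ¬ s a y := fun hc => ha' (Quotient.sound hc)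
    have hnb : ¬ s b y := fun hc => hb' (Quotient.sound hc)
    apply Quotient.sound
    rcases (h a b).1 h3 with h4 | ⟨h4, h5⟩
    · exact h4
    · exact s.trans (h4.resolve_right hna) (s.symm (h5.resolve_right hnb))
  · rw [if_neg hA, add_zero]
    have h1 : f '' {O : Quotient s | ∃ z, ℓ z = A ∧ Quotient.mk _ z = O} =
        {O : Quotient s' | ∃ z, ℓ z = A ∧ Quotient.mk _ z = O} := by
      ext q
      constructor
      · rintro ⟨O, ⟨z, hz, rfl⟩, rfl⟩
        exact ⟨z, hz, rfl⟩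
      · rintro ⟨z, hz, rfl⟩
        exact ⟨Quotient.mk s z, ⟨z, hz, rfl⟩, rfl⟩
    rw [← h1, Set.InjOn.ncard_image]
    rintro _ ⟨a, ha, rfl⟩ _ ⟨b, hb, rfl⟩ hab
    have h3 : s' a b := Quotient.exact hab
    apply Quotient.sound
    rcases (h a b).1 h3 with h4 | ⟨h4, h5⟩
    · exact h4
    · exfalso
      apply hA
      rw [← ha]
      rcases h4 with h4 | h4
      · exact hℓ _ _ h4
      · rw [hℓ _ _ h4, hxy]

end Pool.Agent.Helper77.HW
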