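import Pool.Agent.Helper26.HW.Sub

/-! # Part NE0 of row V2R0: one electron and the nuclei -/

set_option autoImplicit false

namespace Pool.Agent.Helper77.HW

open MeasureTheory Filter Pool.Agent.Helper95.PW Pool.Agent.Helper95.LN Pool.Agent.Helper95.CF
open Pool.Agent.Helper95.HV Pool.Agent.Helper26.HW

theorem NE_nn (u : R3) : 0 ≤ nr u := Real.sqrt_nonneg _

theorem NE_sq (u : R3) : nr u ^ 2 = u 0 ^ 2 + u 1 ^ 2 + u 2 ^ 2 := by
  unfold nr
  exact Real.sq_sqrt (by positivity)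

theorem NE_add (u v : R3) : nr (u + v) ≤ nr u + nr v := by
  have h0 := NE_nn u
  have h1 := NE_nn v
  have e0 := NE_sq u
  have e1 := NE_sq v
  have e2 := NE_sq (u + v)
  simp only [Pi.add_apply] at e2
  have hc : u 0 * v 0 + u 1 * v 1 + u 2 * v 2 ≤ nr u * nr v := by
    have : (u 0 * v 0 + u 1 * v 1 + u 2 * v 2) ^ 2 ≤ (nr u * nr v) ^ 2 := by
      rw [mul_pow, e0, e1]
      nlinarith [sq_nonneg (u 0 * v 1 - u 1 * v 0), sq_nonneg (u 0 * v 2 - u 2 * v 0),
        sq_nonneg (u 1 * v 2 - u 2 * v 1)]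
    exact (abs_le_of_sq_le_sq' this (mul_nonneg h0 h1)).2
  have : nr (u + v) ^ 2 ≤ (nr u + nr v) ^ 2 := by
    rw [e2]
    nlinarith
  exact (abs_le_of_sq_le_sq' this (add_nonneg h0 h1)).2

theorem NE_neg (v : R3) : nr (-v) = nr v := by
  unfold nr
  simp only [Pi.neg_apply, neg_sq]

theorem NE_comp (ξ : R3) (m : Fin 3) : |ξ m| ≤ nr ξ := by
  have h := NE_sq ξ
  apply abs_le_of_sq_le_sq _ (NE_nn ξ)
  rw [h]
  fin_cases m
  · show ξ 0 ^ 2 ≤ _
    nlinarith [sq_nonneg (ξ 1), sq_nonneg (ξ 2)]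
  · show ξ 1 ^ 2 ≤ _
    nlinarith [sq_nonneg (ξ 0), sq_nonneg (ξ 2)]
  · show ξ 2 ^ 2 ≤ _
    nlinarith [sq_nonneg (ξ 0), sq_nonneg (ξ 1)]

theorem NE_dot (f g : Fin 3 → ℝ) (p q : ℝ) (hp : 0 ≤ p) (hf : ∀ m, |f m| ≤ p)
    (hg : ∀ m, |g m| ≤ q) : |∑ m, f m * g m| ≤ 3 * (p * q) := by
  refine (Finset.abs_sum_le_sum_abs _ _).trans ?_
  have h : ∑ m : Fin 3, |f m * g m| ≤ ∑ _m : Fin 3, p * q := Finset.sum_le_sum (fun m _ => by
    rw [abs_mul]
    exact mul_le_mul (hf m) (hg m) (abs_nonneg _) hp)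
  refine h.trans (le_of_eq ?_)
  rw [Finset.sum_const, Finset.card_univ, Fintype.card_fin, nsmul_eq_mul]
  norm_num

theorem NE_T (ξ v w : R3) (a b : ℝ) (ha : 0 ≤ a) (hb : 0 ≤ b) (hv : ∀ m, |v m| ≤ a)
    (hw : ∀ m, |w m| ≤ b) (hξ : 0 < nr ξ) : |Tq ξ v w| ≤ 30 * a * b / nr ξ ^ 3 := by
  have h1 := NE_dot v ξ a (nr ξ) ha hv (NE_comp ξ)
  have h2 := NE_dot w ξ b (nr ξ) hb hw (NE_comp ξ)
  have h3 := NE_dot v w a b ha hv hw
  have p5 := pow_pos hξ 5
  have p3 := pow_pos hξ 3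
  unfold Tq
  have e1 : |3 * (∑ m, v m * ξ m) * (∑ m, w m * ξ m) / nr ξ ^ 5| ≤
      27 * a * b / nr ξ ^ 3 := by
    rw [abs_div, abs_mul, abs_mul, abs_of_pos p5, abs_of_pos (three_pos : (0 : ℝ) < 3),
      div_le_div_iff₀ p5 p3]
    calc 3 * |∑ m, v m * ξ m| * |∑ m, w m * ξ m| * nr ξ ^ 3
        ≤ 3 * (3 * (a * nr ξ)) * (3 * (b * nr ξ)) * nr ξ ^ 3 := by gcongr
      _ = 27 * a * b * nr ξ ^ 5 := by ring
  have e2 : |(∑ m, v m * w m) / nr ξ ^ 3| ≤ 3 * (a * b) / nr ξ ^ 3 := by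
    rw [abs_div, abs_of_pos p3]
    gcongr
  have e3 : 27 * a * b / nr ξ ^ 3 + 3 * (a * b) / nr ξ ^ 3 = 30 * a * b / nr ξ ^ 3 := by ring
  rw [← e3]
  exact (abs_sub _ _).trans (add_le_add e1 e2)

theorem NE_T0 (ξ v : R3) : Tq ξ v (fun _ => 0) = 0 := by
  unfold Tq
  simp

/-- the unit vector -/
noncomputable def ev (m : Fin 3) : R3 := fun i => if i = m then 1 else 0

theorem NE_Tsum (ξ : R3) (hξ : 0 < nr ξ) : ∑ m, Tq ξ (ev m) (ev m) = 0 := by
  have h := NE_sq ξ
  have h5 : nr ξ ^ 5 = nr ξ ^ 3 * nr ξ ^ 2 := by ring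
  have e : ∀ m : Fin 3, Tq ξ (ev m) (ev m) = 3 * (ξ m) ^ 2 / nr ξ ^ 5 - 1 / nr ξ ^ 3 := by
    intro m
    unfold Tq ev
    simp
    ring
  simp only [e]
  rw [Fin.sum_univ_three, h5]
  have p2 : nr ξ ^ 2 ≠ 0 := (pow_pos hξ 2).ne'
  have p3 : nr ξ ^ 3 ≠ 0 := (pow_pos hξ 3).ne'
  have e2 : 3 * ξ 0 ^ 2 / (nr ξ ^ 3 * nr ξ ^ 2) - 1 / nr ξ ^ 3 +
      (3 * ξ 1 ^ 2 / (nr ξ ^ 3 * nr ξ ^ 2) - 1 / nr ξ ^ 3) +
      (3 * ξ 2 ^ 2 / (nr ξ ^ 3 * nr ξ ^ 2) - 1 / nr ξ ^ 3) =
      3 * (ξ 0 ^ 2 + ξ 1 ^ 2 + ξ 2 ^ 2 - nr ξ ^ 2) / (nr ξ ^ 3 * nr ξ ^ 2) := by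
    field_simp
    ring
  rw [e2, h]
  simp

theorem NE_cont : Continuous nr := by
  unfold nr
  exact Real.continuous_sqrt.comp (by fun_prop)

theorem NE_pd (m : Fin 3) (L : ℝ) (hcut : ∀ y, nr y ≤ L → gm m L y = y m) (y : R3)
    (hy : nr y < L) (i : Fin 3) : pd i (gm m L) y = if i = m then 1 else 0 := by
  have h1 : gm m L =ᶠ[nhds y] fun y => y m := by
    filter_upwards [(isOpen_lt NE_cont continuous_const).mem_nhds hy] with w hw
    exact hcut w (le_of_lt hw)
  unfold pd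
  rw [h1.fderiv_eq]
  have h2 : HasFDerivAt (fun y : R3 => y m)
      (ContinuousLinearMap.proj (R := ℝ) (φ := fun _ : Fin 3 => ℝ) m) y :=
    (ContinuousLinearMap.proj (R := ℝ) (φ := fun _ : Fin 3 => ℝ) m).hasFDerivAt
  rw [h2.fderiv]
  simp [Pi.single_apply, eq_comm]

theorem NE_pd2 (m : Fin 3) (L : ℝ) (hcut : ∀ y, nr y ≤ L → gm m L y = y m) (y : R3)
    (hy : nr y < L) (l i : Fin 3) : pd l (pd i (gm m L)) y = 0 := by
  have h1 : pd i (gm m L) =ᶠ[nhds y] fun _ => (if i = m then 1 else 0 : ℝ) := by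
    filter_upwards [(isOpen_lt NE_cont continuous_const).mem_nhds hy] with w hw
    exact NE_pd m L hcut w hw i
  have h2 : pd l (pd i (gm m L)) y = fderiv ℝ (pd i (gm m L)) y (Pi.single l 1) := rfl
  rw [h2, h1.fderiv_eq]
  simp

/-- the term of the nucleus `j` near the nucleus `i` -/
theorem NE_near (d K1 : ℝ) (M : ℕ) (X : Fin M → R3) (y : R3) (hd : 0 < d)
    (hK1 : 1 ≤ K1) (hsep : Sep X d) (A : Fin 3 → R3) (hA : ∀ m i, |A m i| ≤ K1)
    (hA1 : ∀ j, nr (y - X j) < d / 8 → ∀ m, A m = ev m) (i : Fin M)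
    (hi : nr (y - X i) ≤ d / 4) (hy : ∀ j, nr (y - X j) ≠ 0) (j : Fin M) :
    ∑ m, (if nr (y - X j) ≤ d / 2 then Tq (y - X j) (ev m) (A m) else 0) ≤
      90 * K1 * (8 / d) ^ 3 * (if j = i then 1 else 0) := by
  have hp : ∀ j, 0 < nr (y - X j) := fun j => lt_of_le_of_ne (NE_nn _) (Ne.symm (hy j))
  have hev : ∀ m i, |ev m i| ≤ 1 := by
    intro m i
    unfold ev
    split_ifs <;> simp
  by_cases hji : j = i
  · rw [if_pos hji, mul_one, hji]
    simp only [if_pos (show nr (y - X i) ≤ d / 2 by linarith)]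
    have hT : ∑ m, Tq (y - X i) (ev m) (A m) ≤ 90 * K1 / nr (y - X i) ^ 3 := by
      have : ∑ m : Fin 3, Tq (y - X i) (ev m) (A m) ≤
          ∑ _m : Fin 3, 30 * 1 * K1 / nr (y - X i) ^ 3 := Finset.sum_le_sum (fun m _ =>
        (le_abs_self _).trans (NE_T _ _ _ 1 K1 zero_le_one (by linarith) (hev m) (hA m) (hp i)))
      refine this.trans (le_of_eq ?_)
      rw [Finset.sum_const, Finset.card_univ, Fintype.card_fin, nsmul_eq_mul]
      push_cast
      ring
    by_cases hc : nr (y - X i) < d / 8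
    · have : ∑ m, Tq (y - X i) (ev m) (A m) = 0 := by
        rw [← NE_Tsum (y - X i) (hp i)]
        refine Finset.sum_congr rfl fun m _ => ?_
        rw [hA1 i hc m]
      rw [this]
      positivity
    · push Not at hc
      refine hT.trans ?_
      have h8 : (8 / d) ^ 3 = 1 / (d / 8) ^ 3 := by
        rw [div_pow, div_pow, one_div_div]
      rw [h8, ← mul_div_assoc, mul_one]
      have : (d / 8) ^ 3 ≤ nr (y - X i) ^ 3 := pow_le_pow_left₀ (by positivity) hc 3
      gcongr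
  · rw [if_neg hji, mul_zero]
    have hs : 4 * d ≤ nr (X i - X j) := hsep i j (fun h => hji h.symm)
    have h1 : ¬ nr (y - X j) ≤ d / 2 := by
      have e : X i - X j = -(y - X i) + (y - X j) := by abel
      have h2 := NE_add (-(y - X i)) (y - X j)
      rw [← e, NE_neg] at h2
      intro h
      linarith
    simp only [if_neg h1]
    simp

theorem NE0 (h1 : ST_FLD) (h2 : ST_CUT) : ST_NE0 := by
  obtain ⟨K1, hK1, F⟩ := h1
  obtain ⟨K2, hK2, G, -⟩ := h2
  intro d hd hd1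
  have hC1 : 0 < 180 * K1 * (8 / d) ^ 3 := by positivity
  have hC2 : 0 < 414 * K2 ^ 2 := by positivity
  refine ⟨180 * K1 * (8 / d) ^ 3 + 414 * K2 ^ 2, by positivity, ?_⟩
  intro z L n M X Z y hD hL hX hy
  have hp : ∀ j, 0 < nr (y - X j) := fun j => lt_of_le_of_ne (NE_nn _) (Ne.symm (hy j))
  have hZ0 := hD.nuc.1
  have hz0 : 0 ≤ z := by linarith [hD.z1]
  have hpot : 0 ≤ pot X Z y := by
    unfold pot
    exact Finset.sum_nonneg (fun j _ => div_nonneg (hZ0 j) (hp j).le)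
  have hL0 : 0 < L := by linarith
  have FF := fun m => F M X d (d / 8) (d / 8) m hd hD.sep (by positivity) le_rfl (by linarith)
  have hA : ∀ m i, |gv (gN X m (d / 8)) y i| ≤ K1 := fun m i => (FF m).1.d1 i y
  have hA1 : ∀ j, nr (y - X j) < d / 8 → ∀ m, gv (gN X m (d / 8)) y = ev m := by
    intro j hj m
    funext i
    exact (FF m).2.2.1 j y hj i
  have hA0 : (∀ j, d / 4 < nr (y - X j)) → ∀ m, gv (gN X m (d / 8)) y = fun _ => 0 := by
    intro hj m
    funext i
    exact (FF m).2.2.2.1 y (fun j => by linarith [hj j]) i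
  have hR1 : 0 ≤ (180 * K1 * (8 / d) ^ 3 + 414 * K2 ^ 2) * z := by positivity
  have hR2 : 0 ≤ (180 * K1 * (8 / d) ^ 3 + 414 * K2 ^ 2) / L * pot X Z y := by positivity
  by_cases hyL : nr y < L
  · have hg : ∀ m, gv (gm m L) y = ev m := by
      intro m
      funext i
      exact NE_pd m L (G m L hL0).2.1 y hyL i
    have hq : ∀ m i, gq (gm m L) y i = 0 := by
      intro m i
      unfold gq
      refine Finset.sum_eq_zero fun l _ => ?_
      rw [NE_pd2 m L (G m L hL0).2.1 y hyL l i, zero_mul]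
    have es : ∑ m, ∑ j, Z j * ((∑ i, gq (gm m L) y i * (y i - X j i)) / nr (y - X j) ^ 3 -
        Tq (y - X j) (gv (gm m L) y) (gv (gm m L) y) +
        2 * (if nr (y - X j) ≤ d / 2 then
          Tq (y - X j) (gv (gm m L) y) (gv (gN X m (d / 8)) y) else 0)) =
        ∑ j, Z j * (2 * ∑ m, (if nr (y - X j) ≤ d / 2 then
          Tq (y - X j) (ev m) (gv (gN X m (d / 8)) y) else 0)) := by
      rw [Finset.sum_comm]
      refine Finset.sum_congr rfl fun j _ => ?_
      rw [← Finset.mul_sum, Finset.sum_add_distrib, Finset.sum_sub_distrib, ← Finset.mul_sum]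
      have e1 : ∑ m, (∑ i, gq (gm m L) y i * (y i - X j i)) / nr (y - X j) ^ 3 = 0 := by
        refine Finset.sum_eq_zero fun m _ => ?_
        have : ∑ i, gq (gm m L) y i * (y i - X j i) = 0 :=
          Finset.sum_eq_zero fun i _ => by rw [hq, zero_mul]
        rw [this, zero_div]
      have e2 : ∑ m, Tq (y - X j) (gv (gm m L) y) (gv (gm m L) y) = 0 := by
        rw [← NE_Tsum (y - X j) (hp j)]
        exact Finset.sum_congr rfl fun m _ => by rw [hg]
      have e3 : ∑ m, (if nr (y - X j) ≤ d / 2 then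
          Tq (y - X j) (gv (gm m L) y) (gv (gN X m (d / 8)) y) else 0) =
          ∑ m, (if nr (y - X j) ≤ d / 2 then
          Tq (y - X j) (ev m) (gv (gN X m (d / 8)) y) else 0) :=
        Finset.sum_congr rfl fun m _ => by rw [hg]
      rw [e1, e2, e3, sub_zero, zero_add]
    rw [es]
    by_cases hc : ∀ j, d / 4 < nr (y - X j)
    · have : ∑ j, Z j * (2 * ∑ m, (if nr (y - X j) ≤ d / 2 then
          Tq (y - X j) (ev m) (gv (gN X m (d / 8)) y) else 0)) = 0 := by
        refine Finset.sum_eq_zero fun j _ => ?_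
        have : ∑ m, (if nr (y - X j) ≤ d / 2 then
          Tq (y - X j) (ev m) (gv (gN X m (d / 8)) y) else 0) = 0 :=
          Finset.sum_eq_zero fun m _ => by rw [hA0 hc m, NE_T0, ite_self]
        rw [this, mul_zero, mul_zero]
      rw [this]
      linarith
    · push Not at hc
      obtain ⟨i, hi⟩ := hc
      have h3 : ∀ j, Z j * (2 * ∑ m, (if nr (y - X j) ≤ d / 2 then
          Tq (y - X j) (ev m) (gv (gN X m (d / 8)) y) else 0)) ≤
          z * (180 * K1 * (8 / d) ^ 3) * (if j = i then 1 else 0) := by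
        intro j
        have h4 := NE_near d K1 M X y hd hK1 hD.sep (fun m => gv (gN X m (d / 8)) y) hA hA1
          i hi hy j
        have i1 : (0 : ℝ) ≤ if j = i then 1 else 0 := by split_ifs <;> norm_num
        have h5 : 0 ≤ 90 * K1 * (8 / d) ^ 3 * (if j = i then 1 else 0) := by positivity
        have h6 : Z j * (2 * ∑ m, (if nr (y - X j) ≤ d / 2 then
            Tq (y - X j) (ev m) (gv (gN X m (d / 8)) y) else 0)) ≤
            Z j * (2 * (90 * K1 * (8 / d) ^ 3 * (if j = i then 1 else 0))) :=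
          mul_le_mul_of_nonneg_left (by linarith) (hZ0 j)
        have h7 : Z j * (2 * (90 * K1 * (8 / d) ^ 3 * (if j = i then 1 else 0))) ≤
            z * (2 * (90 * K1 * (8 / d) ^ 3 * (if j = i then 1 else 0))) :=
          mul_le_mul_of_nonneg_right (hD.le j) (by linarith)
        refine (h6.trans h7).trans (le_of_eq ?_)
        ring
      have h8 := Finset.sum_le_sum (s := Finset.univ) (fun j _ => h3 j)
      rw [← Finset.mul_sum, Finset.sum_ite_eq' Finset.univ i, if_pos (Finset.mem_univ i)] at h8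
      have h11 : 0 ≤ 414 * K2 ^ 2 * z := by positivity
      have h10 : (180 * K1 * (8 / d) ^ 3 + 414 * K2 ^ 2) * z =
          z * (180 * K1 * (8 / d) ^ 3) * 1 + 414 * K2 ^ 2 * z := by ring
      linarith
  · push Not at hyL
    have hfar : ∀ j, L / 2 ≤ nr (y - X j) := by
      intro j
      have e : y = (y - X j) + X j := by abel
      have h3 := NE_add (y - X j) (X j)
      rw [← e] at h3
      have h4 := hX j
      linarith
    have hc : ∀ j, d / 4 < nr (y - X j) := by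
      intro j
      have := hfar j
      linarith
    have hterm : ∀ m j, Z j * ((∑ i, gq (gm m L) y i * (y i - X j i)) / nr (y - X j) ^ 3 -
        Tq (y - X j) (gv (gm m L) y) (gv (gm m L) y) +
        2 * (if nr (y - X j) ≤ d / 2 then
          Tq (y - X j) (gv (gm m L) y) (gv (gN X m (d / 8)) y) else 0)) ≤
        138 * K2 ^ 2 / L * (Z j / nr (y - X j)) := by
      intro m j
      rw [hA0 hc m, NE_T0, ite_self, mul_zero, add_zero]
      have g1 : ∀ i, |gv (gm m L) y i| ≤ K2 := fun i => (G m L hL0).1.d1 i y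
      have g2 : ∀ i, |gq (gm m L) y i| ≤ 3 * (K2 / L * K2) := by
        intro i
        exact NE_dot (fun l => pd l (pd i (gm m L)) y) (fun l => pd l (gm m L) y) _ _
          (by positivity) (fun l => (G m L hL0).1.d2 l i y) (fun l => (G m L hL0).1.d1 l y)
      have g3 : |∑ i, gq (gm m L) y i * (y i - X j i)| ≤
          3 * (3 * (K2 / L * K2) * nr (y - X j)) :=
        NE_dot _ (fun i => y i - X j i) _ _ (by positivity) g2 (NE_comp (y - X j))
      have g4 := NE_T (y - X j) _ _ K2 K2 (by linarith) (by linarith) g1 g1 (hp j)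
      have hq := hp j
      have hq2 : 1 / 2 ≤ nr (y - X j) := by linarith [hfar j]
      have g5 : (∑ i, gq (gm m L) y i * (y i - X j i)) / nr (y - X j) ^ 3 ≤
          18 * K2 ^ 2 / L / nr (y - X j) := by
        have g6 : (∑ i, gq (gm m L) y i * (y i - X j i)) / nr (y - X j) ^ 3 ≤
            3 * (3 * (K2 / L * K2) * nr (y - X j)) / nr (y - X j) ^ 3 :=
          div_le_div_of_nonneg_right ((le_abs_self _).trans g3) (pow_nonneg hq.le 3)
        refine g6.trans ?_
        have e1 : 3 * (3 * (K2 / L * K2) * nr (y - X j)) / nr (y - X j) ^ 3 =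
            9 * K2 ^ 2 / L / nr (y - X j) * (1 / nr (y - X j)) := by
          field_simp
          ring
        have e2 : 18 * K2 ^ 2 / L / nr (y - X j) = 9 * K2 ^ 2 / L / nr (y - X j) * 2 := by ring
        rw [e1, e2]
        apply mul_le_mul_of_nonneg_left _ (by positivity)
        rw [div_le_iff₀ hq]
        linarith
      have g7 : -Tq (y - X j) (gv (gm m L) y) (gv (gm m L) y) ≤
          120 * K2 ^ 2 / L / nr (y - X j) := by
        refine (neg_le_abs _).trans (g4.trans ?_)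
        have e1 : 30 * K2 * K2 / nr (y - X j) ^ 3 =
            30 * K2 ^ 2 / nr (y - X j) * ((1 / nr (y - X j)) * (1 / nr (y - X j))) := by
          field_simp
        have e2 : 120 * K2 ^ 2 / L / nr (y - X j) =
            30 * K2 ^ 2 / nr (y - X j) * ((2 / L) * 2) := by
          field_simp
          ring
        rw [e1, e2]
        apply mul_le_mul_of_nonneg_left _ (by positivity)
        apply mul_le_mul _ _ (by positivity) (by positivity)
        · rw [div_le_div_iff₀ hq hL0]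
          linarith [hfar j]
        · rw [div_le_iff₀ hq]
          linarith
      have g8 : (∑ i, gq (gm m L) y i * (y i - X j i)) / nr (y - X j) ^ 3 -
          Tq (y - X j) (gv (gm m L) y) (gv (gm m L) y) ≤ 138 * K2 ^ 2 / L / nr (y - X j) := by
        have e : 138 * K2 ^ 2 / L / nr (y - X j) = 18 * K2 ^ 2 / L / nr (y - X j) +
            120 * K2 ^ 2 / L / nr (y - X j) := by ring
        rw [e]
        linarith
      refine (mul_le_mul_of_nonneg_left g8 (hZ0 j)).trans (le_of_eq ?_)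
      ring
    have hs : ∑ m, ∑ j, Z j * ((∑ i, gq (gm m L) y i * (y i - X j i)) / nr (y - X j) ^ 3 -
        Tq (y - X j) (gv (gm m L) y) (gv (gm m L) y) +
        2 * (if nr (y - X j) ≤ d / 2 then
          Tq (y - X j) (gv (gm m L) y) (gv (gN X m (d / 8)) y) else 0)) ≤
        ∑ _m : Fin 3, 138 * K2 ^ 2 / L * pot X Z y := by
      refine Finset.sum_le_sum fun m _ => ?_
      unfold pot
      rw [Finset.mul_sum]
      exact Finset.sum_le_sum fun j _ => hterm m j
    refine hs.trans ?_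
    rw [Finset.sum_const, Finset.card_univ, Fintype.card_fin, nsmul_eq_mul]
    have e : (180 * K1 * (8 / d) ^ 3 + 414 * K2 ^ 2) / L * pot X Z y =
        180 * K1 * (8 / d) ^ 3 / L * pot X Z y +
        ((3 : ℕ) : ℝ) * (138 * K2 ^ 2 / L * pot X Z y) := by
      push_cast
      ring
    have h12 : 0 ≤ 180 * K1 * (8 / d) ^ 3 / L * pot X Z y := by positivity
    linarith

end Pool.Agent.Helper77.HW
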